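import Pool.Agent.Y678.AI.Triv

/-!
# Isomorphisms between `P(Λ)/I_κ` and `P(Λ')/I_κ` which are trivial on all sets of size `κ`

The starting result `NotTrivialOnCountable` of this problem: if `Λ'` has at most `κ` elements and
`A` has more than `κ` elements, no isomorphism from `P(Λ)/I_κ` to `P(Λ')/I_κ` is trivial on all
subsets of `A` of size `κ`. Here `Λ` and `Λ'` are arbitrary.

* An isomorphism which is trivial on all sets of size `κ` is trivial (induced by a bijection between
  sets with small complements) on every subset `A` of `Λ` such that each inaccessible cardinal `c`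
  with `κ < c ≤ #A` has the tree property; in particular on `Λ` itself if there is no inaccessible
  cardinal `c` with `κ < c ≤ #Λ`.
* Without any restriction on the sizes: an isomorphism which sends the class of `A`, `#A > κ`, to
  the class of a set `B` of smaller cardinality than `A` is not trivial on some subset of `A` of
  size `κ`.

The proof of the second item (`Pool.Agent.Y678.AI.Main`) is an induction on `μ = max κ #B`: if the
isomorphism is trivial on the sets of size `κ` in the preimage of a set `V` of size at most `μ`,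
then the preimage has size at most `μ`. The first item follows from it and from the theorem on
automorphisms (`Pool.Agent.Y678.AU`), applied to the automorphism of `P(Λ ⊕ Λ')/I_κ` given by the
isomorphism and its inverse (`Pool.Agent.Y678.AI.Triv`): the inverse is trivial on the sets of size
`κ`, since their preimages have size `κ`.
-/

set_option autoImplicit false

universe u

namespace Pool.Agent.Results.MP_83972e_lc.TrivialIsomorphisms

open Cardinal Pool.Agent.W869.AV Pool.Agent.Y678.AU

theorem result :
    -- the negated form of the question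
    (∀ φ : Quo ℵ₀ le_rfl (Ordinal.omega 1).ToType ≃o Quo ℵ₀ le_rfl ℕ,
      ∃ C : Set (Ordinal.omega 1).ToType, C.Countable ∧ ¬ IsTrivialIso φ C) ∧
    -- isomorphisms which are trivial on all sets of size `κ`
    (∀ (κ : Cardinal.{u}) (hκ : ℵ₀ ≤ κ) (Λ Λ' : Type u) (φ : Quo κ hκ Λ ≃o Quo κ hκ Λ'),
      (∀ C : Set Λ, #C = κ → IsTrivialIso φ C) →
      ∀ A : Set Λ, (∀ c : Cardinal.{u}, κ < c → c ≤ #A → c.IsInaccessible → TreeProp c) →
        IsTrivialIso φ A) ∧
    -- isomorphisms which lower the cardinality of a set
    (∀ (κ : Cardinal.{u}) (hκ : ℵ₀ ≤ κ) (Λ Λ' : Type u) (φ : Quo κ hκ Λ ≃o Quo κ hκ Λ')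
      (A : Set Λ) (B : Set Λ'), φ (cls hκ A) = cls hκ B → κ < #A → #B < #A →
      ∃ C ⊆ A, #C = κ ∧ ¬ IsTrivialIso φ C) := by
  refine ⟨fun φ => ?_, fun κ hκ Λ Λ' φ h A hA => ?_, fun κ hκ Λ Λ' φ A B hB hA hAB =>
    Pool.Agent.Y678.AI.exists_nontrivial φ A B hB hA hAB⟩
  · obtain ⟨B, hB⟩ := exists_cls (φ (cls le_rfl Set.univ))
    have h1 : ℵ₀ < #(Set.univ : Set (Ordinal.omega 1).ToType) := by
      rw [Cardinal.mk_univ, Cardinal.mk_toType, Ordinal.card_omega]
      exact Cardinal.aleph0_lt_aleph_one
    obtain ⟨C, -, hC, hn⟩ := Pool.Agent.Y678.AI.exists_nontrivial φ Set.univ B hB.symm h1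
      (((Cardinal.mk_set_le B).trans Cardinal.mk_nat.le).trans_lt h1)
    exact ⟨C, Cardinal.le_aleph0_iff_set_countable.1 hC.le, hn⟩
  · have : Fact (ℵ₀ ≤ κ) := ⟨hκ⟩
    exact Pool.Agent.Y678.AI.trivialIso_all φ h A hA

end Pool.Agent.Results.MP_83972e_lc.TrivialIsomorphisms
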